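import Pool.Agent.H81.Aver2

set_option autoImplicit false

namespace Pool.Agent.Results.MP_3b565c_an.NoAveraging

universe u

/-- `B(κ)`: the points `x` of `ℝ^κ` (product topology) with `∑ |x i| ≤ 1` (every finite subsum
is at most `1`). -/
def B (κ : Type u) : Set (κ → ℝ) := {x | ∀ F : Finset κ, ∑ i ∈ F, |x i| ≤ 1}

/-- `T` is an averaging operator for `f : L → K`: a linear map `C(L) → C(K)`, bounded for the
supremum norms, with `T (g ∘ f) = g`. -/
def Averaging {L K : Type u} [TopologicalSpace L] [CompactSpace L] [TopologicalSpace K]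
    (f : C(L, K)) (T : C(L, ℝ) →ₗ[ℝ] C(K, ℝ)) : Prop :=
  (∃ C : ℝ, ∀ (h : C(L, ℝ)) (x : K), |T h x| ≤ C * ‖h‖) ∧ ∀ g : C(K, ℝ), T (g.comp f) = g

theorem result (κ : Type u) [Uncountable κ] [TopologicalSpace κ] [DiscreteTopology κ]
    (f : C(ℕ → OnePoint κ, B κ)) (_hf : Function.Surjective f) : ¬ ∃ T, Averaging f T := by
  rintro ⟨T, ⟨C, hC⟩, hT⟩
  exact Pool.Agent.H81.Av.main f T C hC hT

end Pool.Agent.Results.MP_3b565c_an.NoAveraging
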